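import Pool.Graph.R_pool_sql_team_seeded_ab47071d.TH150.CS.Main

set_option autoImplicit false

/-!
A relation between lattices of cyclic index: `T e x y` says that the lattice of index `e` in `ℤ²`
which contains the vector `(x, y)` can be changed to one of small index by steps which keep one
vector.
-/

namespace Pool.Agent.Helper70.CS

open Pool.Agent.TH150.CS

/-- the cubic form -/
def Mf (x y : ℤ) : ℤ := x * y * (x - y)

inductive T : ℤ → ℤ → ℤ → Prop
  | small (e x y : ℤ) : |e| ≤ 48 → e ≠ 0 → IsCoprime x y → IsCoprime e (Mf x y) → T e x y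
  | neg (e x y : ℤ) : T (-e) x y → T e x y
  | shift (e j x y : ℤ) : IsCoprime x y → IsCoprime e (Mf x y) → T (e + Mf x y * j) x y → T e x y
  | vec (e x y x' y' : ℤ) : IsCoprime x y → IsCoprime e (Mf x y) → e ∣ x * y' - x' * y →
      T e x' y' → T e x y

theorem cop_x {e x y : ℤ} (h : IsCoprime e (Mf x y)) : IsCoprime e x :=
  IsCoprime.of_mul_right_left (IsCoprime.of_mul_right_left h)

theorem cop_y {e x y : ℤ} (h : IsCoprime e (Mf x y)) : IsCoprime e y :=
  IsCoprime.of_mul_right_right (IsCoprime.of_mul_right_left h)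

theorem cop_xy {e x y : ℤ} (h : IsCoprime e (Mf x y)) : IsCoprime e (x - y) :=
  IsCoprime.of_mul_right_right h

theorem cop_root {e x y r : ℤ} (h : IsCoprime e (Mf x y)) (hr : e ∣ y * r - x) :
    IsCoprime e (r * (r - 1)) := by
  obtain ⟨s, hs⟩ := hr
  refine IsCoprime.mul_right ?_ ?_
  · have : IsCoprime e (y * r) := by
      have e1 : y * r = x + e * s := by linarith
      rw [e1]
      exact (cop_x h).add_mul_left_right _
    exact IsCoprime.of_mul_right_right this
  · have : IsCoprime e (y * (r - 1)) := by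
      have e1 : y * (r - 1) = (x - y) + e * s := by linarith
      rw [e1]
      exact (cop_xy h).add_mul_left_right _
    exact IsCoprime.of_mul_right_right this

/-- soundness -/
theorem T.good {e x y : ℤ} (h : T e x y) : ∀ r : ℤ, e ∣ y * r - x → Good e r := by
  induction h with
  | small e x y h1 h2 h3 h4 =>
    intro r hr
    exact good_small h1 h2 (cop_root h4 hr)
  | neg e x y _ ih =>
    intro r hr
    have := (ih r ((neg_dvd).2 hr)).neg
    rwa [neg_neg] at this
  | shift e j x y h1 h2 _ ih =>
    intro r hr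
    have h3 : IsCoprime (e + Mf x y * j) y := by
      have e1 : e + Mf x y * j = e + y * (x * (x - y) * j) := by unfold Mf; ring
      rw [e1]
      exact (cop_y h2).add_mul_left_left _
    obtain ⟨r', hr'⟩ := exists_root x h3
    exact good_shift (j := j) h1 hr hr' (by unfold Mf; ring) (ih r' hr')
  | vec e x y x' y' h1 h2 h3 _ ih =>
    intro r hr
    refine ih r ?_
    have h4 : e ∣ y * (y' * r - x') := by
      have e1 : y * (y' * r - x') = y' * (y * r - x) + (x * y' - x' * y) := by ring
      rw [e1]
      exact dvd_add (hr.mul_left _) h3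
    exact (cop_y h2).dvd_of_dvd_mul_left h4

theorem T.swap {e x y : ℤ} (h : T e x y) : T e y x := by
  induction h with
  | small e x y h1 h2 h3 h4 =>
    refine T.small _ _ _ h1 h2 h3.symm ?_
    have e1 : Mf y x = -Mf x y := by unfold Mf; ring
    rw [e1]
    exact h4.neg_right
  | neg e x y _ ih => exact T.neg _ _ _ ih
  | shift e j x y h1 h2 _ ih =>
    have e1 : Mf y x = -Mf x y := by unfold Mf; ring
    refine T.shift e (-j) _ _ h1.symm ?_ ?_
    · rw [e1]
      exact h2.neg_right
    · rw [e1]
      have e2 : e + -Mf x y * -j = e + Mf x y * j := by ring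
      rw [e2]
      exact ih
  | vec e x y x' y' h1 h2 h3 _ ih =>
    have e1 : Mf y x = -Mf x y := by unfold Mf; ring
    refine T.vec e _ _ y' x' h1.symm ?_ ?_ ih
    · rw [e1]
      exact h2.neg_right
    · have e2 : y * x' - y' * x = -(x * y' - x' * y) := by ring
      rw [e2]
      exact (dvd_neg).2 h3

theorem T.refl' {e x y : ℤ} (h : T e x y) : T e x (x - y) := by
  have e1 : ∀ x y : ℤ, Mf x (x - y) = Mf x y := by intro x y; unfold Mf; ring
  have e2 : ∀ x y : ℤ, IsCoprime x y → IsCoprime x (x - y) := by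
    intro x y h
    have := (h.neg_right).add_mul_left_right 1
    rwa [show -y + x * 1 = x - y by ring] at this
  induction h with
  | small e x y h1 h2 h3 h4 =>
    refine T.small _ _ _ h1 h2 (e2 _ _ h3) ?_
    rw [e1]
    exact h4
  | neg e x y _ ih => exact T.neg _ _ _ ih
  | shift e j x y h1 h2 _ ih =>
    refine T.shift e j _ _ (e2 _ _ h1) ?_ ?_
    · rw [e1]
      exact h2
    · rw [e1]
      exact ih
  | vec e x y x' y' h1 h2 h3 _ ih =>
    refine T.vec e _ _ x' (x' - y') (e2 _ _ h1) ?_ ?_ ih
    · rw [e1]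
      exact h2
    · have e3 : x * (x' - y') - x' * (x - y) = -(x * y' - x' * y) := by ring
      rw [e3]
      exact (dvd_neg).2 h3

/-- small values of the cubic form -/
theorem T.base {e x y : ℤ} (h1 : IsCoprime x y) (h2 : IsCoprime e (Mf x y))
    (h3 : |Mf x y| ≤ 96) : T e x y := by
  by_cases hM : Mf x y = 0
  · rw [hM, isCoprime_zero_right, Int.isUnit_iff] at h2
    have h4 : IsCoprime e (Mf x y) := by
      rcases h2 with rfl | rfl
      · exact isCoprime_one_left
      · exact isCoprime_one_left.neg_left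
    refine T.small e x y ?_ ?_ h1 h4 <;> rcases h2 with rfl | rfl <;> norm_num
  · obtain ⟨j, hj⟩ : ∃ j : ℤ, |e + Mf x y * j| ≤ 48 := by
      have a1 := Int.emod_nonneg e hM
      have a2 := Int.emod_lt_abs e hM
      have a3 : e % Mf x y = e - Mf x y * (e / Mf x y) := Int.emod_def _ _
      by_cases hc : e % Mf x y ≤ 48
      · refine ⟨-(e / Mf x y), ?_⟩
        have e1 : e + Mf x y * -(e / Mf x y) = e % Mf x y := by rw [a3]; ring
        rw [e1, abs_of_nonneg a1]
        exact hc
      · rcases abs_cases (Mf x y) with ⟨h4, h5⟩ | ⟨h4, h5⟩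
        · refine ⟨-(e / Mf x y) - 1, ?_⟩
          have e1 : e + Mf x y * (-(e / Mf x y) - 1) = e % Mf x y - Mf x y := by rw [a3]; ring
          rw [e1, abs_le]
          constructor <;> omega
        · refine ⟨-(e / Mf x y) + 1, ?_⟩
          have e1 : e + Mf x y * (-(e / Mf x y) + 1) = e % Mf x y + Mf x y := by rw [a3]; ring
          rw [e1, abs_le]
          constructor <;> omega
    have h4 : IsCoprime (e + Mf x y * j) (Mf x y) := h2.add_mul_left_left _
    refine T.shift e j x y h1 h2 (T.small _ _ _ hj ?_ h1 h4)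
    intro h0
    rw [h0, isCoprime_zero_left, Int.isUnit_iff] at h4
    have h5 : (2 : ℤ) ∣ Mf x y := S_even x y
    omega

/-- the sign of the vector -/
theorem T.negv {e x y : ℤ} (h1 : IsCoprime x y) (h2 : IsCoprime e (Mf x y)) (h : T e (-x) (-y)) :
    T e x y :=
  T.vec e x y (-x) (-y) h1 h2 ⟨0, by ring⟩ h

end Pool.Agent.Helper70.CS
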