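import Pool.Agent.Helper70.CS.Basic

set_option autoImplicit false

/-! The euclidean algorithm for pairs of vectors `(p, p + X)`, `(w - Y, w)`. -/

namespace Pool.Agent.Helper70.CS

/-- the state -/
def Q (p w X Y : ℤ) : Prop := T (X * Y + p * Y - w * X) p (p + X)

structure CV (p w X Y : ℤ) : Prop where
  c1 : IsCoprime p X
  c3 : IsCoprime p (Y - w)
  c4 : IsCoprime w (X + p)
  c5 : IsCoprime X Y

theorem CV.prim {p w X Y : ℤ} (h : CV p w X Y) : IsCoprime p (p + X) := by
  have := h.c1.add_mul_left_right 1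
  rwa [show X + p * 1 = p + X by ring] at this

theorem CV.cop {p w X Y : ℤ} (h : CV p w X Y) :
    IsCoprime (X * Y + p * Y - w * X) (Mf p (p + X)) := by
  unfold Mf
  refine IsCoprime.mul_right (IsCoprime.mul_right ?_ ?_) ?_
  · have e1 : X * Y + p * Y - w * X = X * (Y - w) + p * Y := by ring
    rw [e1]
    exact (IsCoprime.mul_left h.c1.symm h.c3.symm).add_mul_left_left _
  · have e1 : X * Y + p * Y - w * X = w * p + (p + X) * (Y - w) := by ring
    rw [e1]
    have h4 : IsCoprime w (p + X) := by rw [add_comm]; exact h.c4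
    exact (IsCoprime.mul_left h4 h.prim).add_mul_left_left _
  · have e1 : X * Y + p * Y - w * X = p * Y + (p - (p + X)) * (w - Y) := by ring
    rw [e1]
    have e2 : p - (p + X) = -X := by ring
    have h4 : IsCoprime (p * Y) (p - (p + X)) := by
      rw [e2]
      exact (IsCoprime.mul_left h.c1 h.c5.symm).neg_right
    exact h4.add_mul_left_left _

theorem CV.copU {p w X Y : ℤ} (h : CV p w X Y) (h2 : IsCoprime w Y) :
    IsCoprime (X * Y + p * Y - w * X) (Mf (w - Y) w) := by
  unfold Mf
  have hY : IsCoprime Y (w - Y) := by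
    have := h2.symm.add_mul_left_right (-1)
    rwa [show w + Y * -1 = w - Y by ring] at this
  refine IsCoprime.mul_right (IsCoprime.mul_right ?_ ?_) ?_
  · have e1 : X * Y + p * Y - w * X = p * Y + (w - Y) * (-X) := by ring
    rw [e1]
    have h3 : IsCoprime p (w - Y) := by
      have := h.c3.neg_right
      rwa [neg_sub] at this
    exact (IsCoprime.mul_left h3 hY).add_mul_left_left _
  · have e1 : X * Y + p * Y - w * X = Y * (X + p) + w * (-X) := by ring
    rw [e1]
    exact (IsCoprime.mul_left h2.symm h.c4.symm).add_mul_left_left _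
  · have e1 : X * Y + p * Y - w * X = w * X + (w - Y - w) * (-(X + p) + 2 * w * 0) + -(2 * (w * X)) := by ring
    have e2 : X * Y + p * Y - w * X = -(w * X) + (w - Y - w) * (-(X + p)) := by ring
    rw [e2]
    have h3 : IsCoprime (w * X) Y := IsCoprime.mul_left h2 h.c5
    have e3 : w - Y - w = -Y := by ring
    have h4 : IsCoprime (-(w * X)) (w - Y - w) := by
      rw [e3]
      exact h3.neg_left.neg_right
    exact h4.add_mul_left_left _

theorem stepY {p w X Y : ℤ} (s : ℤ) (h : CV p w X Y) (hQ : Q p w X (Y + p * X * s)) :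
    Q p w X Y := by
  unfold Q at *
  refine T.shift _ (-s) _ _ h.prim h.cop ?_
  have e1 : X * Y + p * Y - w * X + Mf p (p + X) * -s =
      X * (Y + p * X * s) + p * (Y + p * X * s) - w * X := by unfold Mf; ring
  rw [e1]
  exact hQ

theorem stepX {p w X Y : ℤ} (s : ℤ) (h : CV p w X Y) (h' : CV p w (X + w * Y * s) Y)
    (h2 : IsCoprime w Y) (hQ : Q p w (X + w * Y * s) Y) : Q p w X Y := by
  unfold Q at *
  have hu : IsCoprime (w - Y) w := by
    have := (h2.symm.neg_left).add_mul_left_left 1
    rwa [show -Y + w * 1 = w - Y by ring] at this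
  refine T.vec _ _ _ (w - Y) w h.prim h.cop ⟨1, by ring⟩ ?_
  refine T.shift _ s _ _ hu (h.copU h2) ?_
  have e1 : X * Y + p * Y - w * X + Mf (w - Y) w * s =
      (X + w * Y * s) * Y + p * Y - w * (X + w * Y * s) := by unfold Mf; ring
  rw [e1]
  refine T.vec _ _ _ p (p + (X + w * Y * s)) hu (h'.copU h2) ⟨-1, by ring⟩ hQ

theorem dec {X Z : ℤ} (hZ : Z ≠ 0) (h : |Z| < 2 * |X|) :
    ∃ s : ℤ, (X + Z * s).natAbs < X.natAbs := by
  rw [Int.abs_eq_natAbs, Int.abs_eq_natAbs] at h
  by_cases hs : (0 < Z ∧ 0 < X) ∨ (Z < 0 ∧ X < 0)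
  · exact ⟨-1, by omega⟩
  · exact ⟨1, by omega⟩

theorem odd_iff {x : ℤ} : ¬ (2 : ℤ) ∣ x ↔ x % 2 = 1 := by omega

theorem cop_four {p X : ℤ} (hp : p ∣ 4) (h : (2 : ℤ) ∣ p → ¬ (2 : ℤ) ∣ X) : IsCoprime p X := by
  by_cases h2 : (2 : ℤ) ∣ p
  · have h3 : IsCoprime (2 : ℤ) X := (Int.prime_two.coprime_iff_not_dvd).2 (h h2)
    have h4 : IsCoprime (4 : ℤ) X := by
      have := IsCoprime.mul_left h3 h3
      norm_num at this
      exact this
    exact IsCoprime.of_isCoprime_of_dvd_left h4 hp
  · have h3 : IsCoprime p 2 := ((Int.prime_two.coprime_iff_not_dvd).2 h2).symm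
    have h4 : IsCoprime p 4 := by
      have := IsCoprime.mul_right h3 h3
      norm_num at this
      exact this
    have h5 : IsUnit p := by
      have := h4.isUnit_of_dvd' (dvd_refl p) hp
      exact this
    exact (isCoprime_one_left).of_isCoprime_of_dvd_left (isUnit_iff_dvd_one.1 h5)

/-- the euclidean algorithm, powers of two -/
theorem coreA {p w : ℤ} (hp : p ∣ 4) (hw : w ∣ 4) (hpw : |p * w| ≤ 4) :
    ∀ (n : ℕ) (X Y : ℤ), X.natAbs + Y.natAbs ≤ n →
      ((2 : ℤ) ∣ p → ¬ (2 : ℤ) ∣ X ∧ ¬ (2 : ℤ) ∣ Y - w) →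
      ((2 : ℤ) ∣ w → ¬ (2 : ℤ) ∣ Y ∧ ¬ (2 : ℤ) ∣ X + p) → IsCoprime X Y → Q p w X Y := by
  have hp0 : p ≠ 0 := by rintro rfl; norm_num at hp
  have hw0 : w ≠ 0 := by rintro rfl; norm_num at hw
  have hp4 : |p| ≤ 4 := by
    have := Int.le_of_dvd (by norm_num) hp
    have := Int.le_of_dvd (by norm_num) ((neg_dvd).2 hp)
    rw [abs_le]; omega
  -- at most one of the two is even unless both are 2
  have hboth : (2 : ℤ) ∣ p → (2 : ℤ) ∣ w → True := fun _ _ => trivial
  intro n
  induction n with
  | zero =>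
    intro X Y hn hP hW hXY
    have hX : X = 0 := by omega
    have hY : Y = 0 := by omega
    rw [hX, hY, isCoprime_zero_left] at hXY
    exact absurd hXY not_isUnit_zero
  | succ n ih =>
    intro X Y hn hP hW hXY
    have hC : CV p w X Y := ⟨cop_four hp fun h => (hP h).1, cop_four hp fun h => (hP h).2,
      cop_four hw fun h => (hW h).2, hXY⟩
    have h2 : IsCoprime w Y := cop_four hw fun h => (hW h).1
    by_cases hX2 : |X| ≤ 2
    · -- small case
      refine T.base hC.prim hC.cop ?_
      unfold Mf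
      have e1 : p * (p + X) * (p - (p + X)) = -(p * ((p + X) * X)) := by ring
      rw [e1, abs_neg, abs_mul, abs_mul]
      have a1 : |p + X| ≤ 6 := (abs_add_le p X).trans (by linarith)
      have a2 : |p + X| * |X| ≤ 6 * 2 := mul_le_mul a1 hX2 (abs_nonneg _) (by norm_num)
      have a3 : |p| * (|p + X| * |X|) ≤ 4 * (6 * 2) :=
        mul_le_mul hp4 a2 (by positivity) (by norm_num)
      linarith
    push Not at hX2
    have hY0 : Y ≠ 0 := by
      rintro rfl
      rw [isCoprime_zero_right, Int.isUnit_iff] at hXY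
      rcases hXY with h | h <;> rw [h] at hX2 <;> norm_num at hX2
    by_cases hc : |w * Y| < 2 * |X|
    · -- change `X`
      have hwY : w * Y ≠ 0 := mul_ne_zero hw0 hY0
      obtain ⟨s, hlt⟩ := dec hwY hc
      have hP' : (2 : ℤ) ∣ p → ¬ (2 : ℤ) ∣ (X + w * Y * s) ∧ ¬ (2 : ℤ) ∣ Y - w := by
        intro h
        refine ⟨?_, (hP h).2⟩
        intro h3
        have a1 := (hP h).1
        have a2 := (hP h).2
        by_cases hw2 : (2 : ℤ) ∣ w
        · have a3 : (2 : ℤ) ∣ w * Y * s := (hw2.mul_right _).mul_right _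
          exact a1 ((dvd_add_left a3).1 h3)
        · have a3 : (2 : ℤ) ∣ Y := by omega
          have a4 : (2 : ℤ) ∣ w * Y * s := (a3.mul_left _).mul_right _
          exact a1 ((dvd_add_left a4).1 h3)
      have hW' : (2 : ℤ) ∣ w → ¬ (2 : ℤ) ∣ Y ∧ ¬ (2 : ℤ) ∣ (X + w * Y * s) + p := by
        intro h
        refine ⟨(hW h).1, ?_⟩
        intro h3
        have a3 : (2 : ℤ) ∣ w * Y * s := (h.mul_right _).mul_right _
        have e1 : X + w * Y * s + p = (X + p) + w * Y * s := by ring
        rw [e1] at h3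
        exact (hW h).2 ((dvd_add_left a3).1 h3)
      have hXY' : IsCoprime (X + w * Y * s) Y := by
        have e1 : X + w * Y * s = X + Y * (w * s) := by ring
        rw [e1]
        exact hXY.add_mul_left_left _
      have hC' : CV p w (X + w * Y * s) Y := ⟨cop_four hp fun h => (hP' h).1,
        cop_four hp fun h => (hP' h).2, cop_four hw fun h => (hW' h).2, hXY'⟩
      exact stepX s hC hC' h2 (ih _ _ (by omega) hP' hW' hXY')
    · -- change `Y`
      push Not at hc
      have hX0 : X ≠ 0 := by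
        rintro rfl
        norm_num at hX2
      have hpX : p * X ≠ 0 := mul_ne_zero hp0 hX0
      have hd : |p * X| < 2 * |Y| := by
        by_contra hcon
        push Not at hcon
        rw [abs_mul] at hc hcon hpw
        have b1 : 0 < |p| := abs_pos.2 hp0
        have b2 : 0 < |X| := abs_pos.2 hX0
        have b3 : 0 < |Y| := abs_pos.2 hY0
        have b4 : 0 < |w| := abs_pos.2 hw0
        have b5 : |p| * |X| ≤ 2 * |Y| := by
          have b6 : |p| * (2 * |X|) ≤ |p| * (|w| * |Y|) := mul_le_mul_of_nonneg_left hc b1.le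
          have b7 : |p| * |w| * |Y| ≤ 4 * |Y| := mul_le_mul_of_nonneg_right hpw b3.le
          have b8 : |p| * (|w| * |Y|) = |p| * |w| * |Y| := by ring
          linarith
        have b6 : |p * X| = |2 * Y| := by
          rw [abs_mul, abs_mul]
          norm_num
          linarith
        have b7 : X ∣ 2 * Y := by
          have : X ∣ p * X := dvd_mul_left _ _
          rwa [← dvd_abs, b6, dvd_abs] at this
        have b8 : X ∣ 2 := hXY.dvd_of_dvd_mul_right b7
        have b9 := Int.le_of_dvd (by norm_num) ((abs_dvd _ _).2 b8)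
        linarith
      obtain ⟨s, hlt⟩ := dec hpX hd
      refine stepY s hC (ih _ _ (by omega) ?_ ?_ ?_)
      · intro h
        refine ⟨(hP h).1, ?_⟩
        intro h3
        have a3 : (2 : ℤ) ∣ p * X * s := (h.mul_right _).mul_right _
        have e1 : Y + p * X * s - w = (Y - w) + p * X * s := by ring
        rw [e1] at h3
        exact (hP h).2 ((dvd_add_left a3).1 h3)
      · intro h
        refine ⟨?_, (hW h).2⟩
        intro h3
        have a1 := (hW h).1
        have a2 := (hW h).2
        by_cases hp2 : (2 : ℤ) ∣ p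
        · have a3 : (2 : ℤ) ∣ p * X * s := (hp2.mul_right _).mul_right _
          exact a1 ((dvd_add_left a3).1 h3)
        · have a3 : (2 : ℤ) ∣ X := by omega
          have a4 : (2 : ℤ) ∣ p * X * s := (a3.mul_left _).mul_right _
          exact a1 ((dvd_add_left a4).1 h3)
      · have e1 : Y + p * X * s = Y + X * (p * s) := by ring
        rw [e1]
        exact hXY.add_mul_left_right _

end Pool.Agent.Helper70.CS
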