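import Pool.Agent.Helper70.CS.Three

set_option autoImplicit false

/-! The families. -/

namespace Pool.Agent.Helper70.CS

open Pool.Agent.TH150.CS

/-- the residue condition for the coordinates `p`, `q` -/
def Cond (e p q : ℤ) : Prop :=
  (∃ w : ℤ, 1 ≤ |p * w| ∧ |p * w| ≤ 4 ∧ q ∣ e - p * w) ∨
    (∃ w : ℤ, |p| = 1 ∧ |w| = 1 ∧ q ∣ 2 * e - w)

theorem odd_of_cop {e x y : ℤ} (h : IsCoprime e (Mf x y)) : ¬ (2 : ℤ) ∣ e := by
  intro h2
  have h3 : (2 : ℤ) ∣ Mf x y := S_even x y
  have h4 := h.isUnit_of_dvd' h2 h3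
  rw [Int.isUnit_iff] at h4
  omega

theorem abs_small {x : ℤ} (h1 : 1 ≤ |x|) (h2 : |x| ≤ 4) :
    x = 1 ∨ x = -1 ∨ x = 2 ∨ x = -2 ∨ x = 3 ∨ x = -3 ∨ x = 4 ∨ x = -4 := by
  rw [Int.abs_eq_natAbs] at h1 h2
  omega

/-- the first kind, `p w` not divisible by three -/
theorem famA {e p q w : ℤ} (h1 : IsCoprime p q) (h2 : IsCoprime e (Mf p q)) (hp : p ∣ 4)
    (hw : w ∣ 4) (hpw : |p * w| ≤ 4) (hq : q ∣ e - p * w) : T e p q := by
  obtain ⟨s, hs⟩ := hq
  have he : e = p * w + q * s := by linarith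
  have hodd := odd_of_cop h2
  obtain ⟨X, hX⟩ : ∃ X, X = q - p := ⟨_, rfl⟩
  obtain ⟨Y, hY⟩ : ∃ Y, Y = w + s := ⟨_, rfl⟩
  have e1 : X * Y + p * Y - w * X = e := by rw [hX, hY, he]; ring
  have e2 : p + X = q := by rw [hX]; ring
  have hXY : IsCoprime X Y := by
    have h3 : IsCoprime e (p - q) := cop_xy h2
    have h4 : IsCoprime (p * Y) X := by
      have e3 : p * Y = e + X * (w - Y) := by rw [← e1]; ring
      rw [e3]
      have h5 : IsCoprime e X := by
        have := h3.neg_right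
        rwa [neg_sub, ← hX] at this
      exact h5.add_mul_left_left _
    exact (IsCoprime.of_mul_left_right h4).symm
  have hqodd : (2 : ℤ) ∣ p → ¬ (2 : ℤ) ∣ q := by
    intro h3 h4
    have := h1.isUnit_of_dvd' h3 h4
    rw [Int.isUnit_iff] at this
    omega
  have hsodd : (2 : ℤ) ∣ p * w → ¬ (2 : ℤ) ∣ q ∧ ¬ (2 : ℤ) ∣ s := by
    intro h3
    have h4 : ¬ (2 : ℤ) ∣ q * s := by
      intro h5
      apply hodd
      rw [he]
      exact dvd_add h3 h5
    exact ⟨fun h => h4 (h.mul_right _), fun h => h4 (h.mul_left _)⟩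
  have := coreA hp hw hpw _ X Y le_rfl (by
    intro h3
    obtain ⟨h4, h5⟩ := hsodd (h3.mul_right _)
    refine ⟨?_, ?_⟩
    · rw [hX]; omega
    · rw [hY]; omega) (by
    intro h3
    obtain ⟨h4, h5⟩ := hsodd (h3.mul_left _)
    refine ⟨?_, ?_⟩
    · rw [hY]; omega
    · have : X + p = q := by rw [hX]; ring
      rw [this]; exact h4) hXY
  unfold Q at this
  rwa [e1, e2] at this

/-- the first kind, `w = ± 3` -/
theorem famB {e p q w : ℤ} (h2 : IsCoprime e (Mf p q)) (hp : p = 1 ∨ p = -1)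
    (hw : w = 3 ∨ w = -3) (hq : q ∣ e - p * w) : T e p q := by
  obtain ⟨s, hs⟩ := hq
  have he : e = p * w + q * s := by linarith
  have hw3 : (3 : ℤ) ∣ w := by rcases hw with rfl | rfl <;> norm_num
  obtain ⟨X, hX⟩ : ∃ X, X = q - p := ⟨_, rfl⟩
  obtain ⟨Y, hY⟩ : ∃ Y, Y = w + s := ⟨_, rfl⟩
  have e1 : X * Y + p * Y - w * X = e := by rw [hX, hY, he]; ring
  have e2 : p + X = q := by rw [hX]; ring
  have hXY : IsCoprime X Y := by
    have h3 : IsCoprime e (p - q) := cop_xy h2
    have h4 : IsCoprime (p * Y) X := by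
      have e3 : p * Y = e + X * (w - Y) := by rw [← e1]; ring
      rw [e3]
      have h5 : IsCoprime e X := by
        have := h3.neg_right
        rwa [neg_sub, ← hX] at this
      exact h5.add_mul_left_left _
    exact (IsCoprime.of_mul_left_right h4).symm
  have h3 : ¬ (3 : ℤ) ∣ X + p := by
    have : X + p = q := by rw [hX]; ring
    rw [this]
    intro h4
    have h5 : (3 : ℤ) ∣ e := by
      rw [he]
      exact dvd_add (hw3.mul_left _) (h4.mul_right _)
    have h6 := (cop_y h2).isUnit_of_dvd' h5 h4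
    rw [Int.isUnit_iff] at h6
    omega
  have := coreB hp hw _ X Y le_rfl h3 hXY
  unfold Q at this
  rwa [e1, e2] at this

/-- the first kind, `p = ± 3` -/
theorem famB' {e p q w : ℤ} (h1 : IsCoprime p q) (h2 : IsCoprime e (Mf p q))
    (hp : p = 3 ∨ p = -3) (hw : w = 1 ∨ w = -1) (hq : q ∣ e - p * w) : T e p q := by
  obtain ⟨s, hs⟩ := hq
  have he : e = p * w + q * s := by linarith
  have hp3 : (3 : ℤ) ∣ p := by rcases hp with rfl | rfl <;> norm_num
  have hwu : IsUnit w := Int.isUnit_iff.2 hw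
  have hs3 : ¬ (3 : ℤ) ∣ s := by
    intro h3
    have h5 : (3 : ℤ) ∣ e := by
      rw [he]
      exact dvd_add (hp3.mul_right _) (h3.mul_left _)
    have h6 := (cop_x h2).isUnit_of_dvd' h5 hp3
    rw [Int.isUnit_iff] at h6
    omega
  have hcp : IsCoprime p s := cop_three hp hs3
  have hes : IsCoprime e s := by
    rw [he]
    exact (IsCoprime.mul_left hcp (unit_cop hwu)).add_mul_right_left _
  have hesw : IsCoprime e (w - -s) := by
    have h3 : IsCoprime e (p - q) := cop_xy h2
    have e1 : e = w * (p - q) + (w - -s) * q := by rw [he]; ring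
    have h4 : IsCoprime (p - q) (w - -s) := by
      -- a common divisor divides `e` and `p - q`
      have h5 : IsCoprime (w * (p - q) + (w - -s) * q) (p - q) := by rw [← e1]; exact h3
      have h6 : IsCoprime ((w - -s) * q) (p - q) := by
        have := h5.add_mul_right_left (-w)
        rwa [show w * (p - q) + (w - -s) * q + -w * (p - q) = (w - -s) * q by ring] at this
      exact (IsCoprime.of_mul_left_left h6).symm
    rw [e1]
    exact (IsCoprime.mul_left (unit_cop hwu) h4).add_mul_left_left _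
  have h3 : IsCoprime e (Mf w (-s)) := by
    unfold Mf
    exact IsCoprime.mul_right (IsCoprime.mul_right (unit_cop hwu).symm hes.neg_right) hesw
  have h4 : T e w (-s) := famB h3 hw hp ⟨-q, by rw [he]; ring⟩
  have h5 : T e (-s) w := h4.swap
  exact T.vec e p q (-s) w h1 h2 ⟨1, by rw [he]; ring⟩ h5

/-- the second kind -/
theorem famC {e p q w : ℤ} (h2 : IsCoprime e (Mf p q)) (hp : p = 1 ∨ p = -1)
    (hw : w = 1 ∨ w = -1) (hq : q ∣ 2 * e - w) : T e p q := by
  obtain ⟨s, hs⟩ := hq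
  have hodd := odd_of_cop h2
  obtain ⟨u, hu⟩ : ∃ u, u = p * w := ⟨_, rfl⟩
  have hu1 : u = 1 ∨ u = -1 := by
    rcases hp with rfl | rfl <;> rcases hw with rfl | rfl <;> rw [hu] <;> norm_num
  have hpu : p * u = w := by
    rcases hp with rfl | rfl <;> rw [hu] <;> ring
  have he : 2 * e = p * u + q * s := by linarith
  have hqs : ¬ (2 : ℤ) ∣ q * s := by
    intro h
    rw [← hs] at h
    rcases hw with rfl | rfl <;> omega
  have hq2 : ¬ (2 : ℤ) ∣ q := fun h => hqs (h.mul_right _)
  have hs2 : ¬ (2 : ℤ) ∣ s := fun h => hqs (h.mul_left _)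
  obtain ⟨X, hX⟩ : ∃ X, 2 * X = q - p := ⟨(q - p) / 2, by rcases hp with rfl | rfl <;> omega⟩
  obtain ⟨Y, hY⟩ : ∃ Y, 2 * Y = u + s := ⟨(u + s) / 2, by rcases hu1 with h | h <;> omega⟩
  have e1 : 2 * X * Y + p * Y - u * X = e := by
    have h3 : 2 * (2 * X * Y + p * Y - u * X) = 2 * e := by
      have h4 : 2 * (2 * X * Y + p * Y - u * X) = (2 * X) * (2 * Y) + p * (2 * Y) - u * (2 * X) := by
        ring
      rw [h4, hX, hY, he]
      ring
    linarith
  have e2 : p + 2 * X = q := by rw [hX]; ring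
  have hXY : IsCoprime X Y := by
    have h3 : IsCoprime e (p - q) := cop_xy h2
    have h5 : IsCoprime e X := by
      have h6 := h3.neg_right
      rw [neg_sub, ← hX] at h6
      exact IsCoprime.of_mul_right_right h6
    have h4 : IsCoprime (p * Y) X := by
      have e3 : p * Y = e + X * (u - 2 * Y) := by rw [← e1]; ring
      rw [e3]
      exact h5.add_mul_left_left _
    exact (IsCoprime.of_mul_left_right h4).symm
  have hpar : ¬ (2 : ℤ) ∣ X + Y := by
    intro h
    apply hodd
    rw [← e1]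
    rcases hp with h3 | h3 <;> rcases hu1 with h4 | h4 <;> rw [h3, h4]
    · have e : 2 * X * Y + 1 * Y - 1 * X = (X + Y) + 2 * (X * Y - X) := by ring
      rw [e]; exact dvd_add h ⟨_, rfl⟩
    · have e : 2 * X * Y + 1 * Y - (-1) * X = (X + Y) + 2 * (X * Y) := by ring
      rw [e]; exact dvd_add h ⟨_, rfl⟩
    · have e : 2 * X * Y + (-1) * Y - 1 * X = (X + Y) + 2 * (X * Y - X - Y) := by ring
      rw [e]; exact dvd_add h ⟨_, rfl⟩
    · have e : 2 * X * Y + (-1) * Y - (-1) * X = (X + Y) + 2 * (X * Y - Y) := by ring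
      rw [e]; exact dvd_add h ⟨_, rfl⟩
  have := coreC hp hu1 _ X Y le_rfl hpar hXY
  rwa [e1, e2] at this

theorem fam {e p q : ℤ} (h1 : IsCoprime p q) (h2 : IsCoprime e (Mf p q)) (h : Cond e p q) :
    T e p q := by
  rcases h with ⟨w, h3, h4, h5⟩ | ⟨w, h3, h4, h5⟩
  · have hp0 : p ≠ 0 := by rintro rfl; norm_num at h3
    have hw0 : w ≠ 0 := by rintro rfl; norm_num at h3
    have hp1 : 1 ≤ |p| := Int.one_le_abs hp0
    have hw1 : 1 ≤ |w| := Int.one_le_abs hw0
    have hp4 : |p| ≤ 4 := by rw [abs_mul] at h4; nlinarith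
    have hw4 : |w| ≤ 4 := by rw [abs_mul] at h4; nlinarith
    have c1 := abs_small hp1 hp4
    have c2 := abs_small hw1 hw4
    by_cases hp3 : p = 3 ∨ p = -3
    · have hw' : w = 1 ∨ w = -1 := by
        rcases hp3 with rfl | rfl <;> rcases c2 with rfl | rfl | rfl | rfl | rfl | rfl | rfl | rfl <;>
          first | (left; rfl) | (right; rfl) | (exfalso; revert h4; norm_num)
      exact famB' h1 h2 hp3 hw' h5
    by_cases hw3 : w = 3 ∨ w = -3
    · have hp' : p = 1 ∨ p = -1 := by
        rcases hw3 with rfl | rfl <;> rcases c1 with rfl | rfl | rfl | rfl | rfl | rfl | rfl | rfl <;>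
          first | (left; rfl) | (right; rfl) | (exfalso; revert h4; norm_num)
      exact famB h2 hp' hw3 h5
    · have hpd : p ∣ 4 := by
        rcases c1 with rfl | rfl | rfl | rfl | rfl | rfl | rfl | rfl <;>
          first | (exfalso; revert hp3; norm_num; done) | norm_num
      have hwd : w ∣ 4 := by
        rcases c2 with rfl | rfl | rfl | rfl | rfl | rfl | rfl | rfl <;>
          first | (exfalso; revert hw3; norm_num; done) | norm_num
      exact famA h1 h2 hpd hwd h4 h5
  · refine famC h2 ?_ ?_ h5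
    · rcases abs_eq (show (0 : ℤ) ≤ 1 by norm_num) |>.1 h3 with h | h
      · exact Or.inl h
      · exact Or.inr h
    · rcases abs_eq (show (0 : ℤ) ≤ 1 by norm_num) |>.1 h4 with h | h
      · exact Or.inl h
      · exact Or.inr h

/-- `p`, `q` are two different ones of the three numbers `x`, `y`, `x - y` -/
def Two (x y p q : ℤ) : Prop :=
  (p = x ∧ q = y) ∨ (p = x ∧ q = x - y) ∨ (p = y ∧ q = x) ∨ (p = y ∧ q = x - y) ∨
    (p = x - y ∧ q = x) ∨ (p = x - y ∧ q = y)

theorem Cond.neg_right {e p q : ℤ} (h : Cond e p q) : Cond e p (-q) := by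
  rcases h with ⟨w, h3, h4, h5⟩ | ⟨w, h3, h4, h5⟩
  · exact Or.inl ⟨w, h3, h4, (neg_dvd).2 h5⟩
  · exact Or.inr ⟨w, h3, h4, (neg_dvd).2 h5⟩

theorem Cond.neg_left {e p q : ℤ} (h : Cond e p q) : Cond e (-p) q := by
  rcases h with ⟨w, h3, h4, h5⟩ | ⟨w, h3, h4, h5⟩
  · exact Or.inl ⟨-w, by rwa [neg_mul_neg], by rwa [neg_mul_neg], by rwa [neg_mul_neg]⟩
  · exact Or.inr ⟨w, by rwa [abs_neg], h4, h5⟩

theorem fam2 {e x y p q : ℤ} (h1 : IsCoprime x y) (h2 : IsCoprime e (Mf x y)) (h : Two x y p q)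
    (hc : Cond e p q) : T e x y := by
  have m1 : Mf y x = -Mf x y := by unfold Mf; ring
  have m2 : Mf x (x - y) = Mf x y := by unfold Mf; ring
  have m3 : Mf y (y - x) = -Mf x y := by unfold Mf; ring
  have m4 : Mf (x - y) x = -Mf x y := by unfold Mf; ring
  have m5 : Mf (y - x) y = Mf x y := by unfold Mf; ring
  have c2 : IsCoprime x (x - y) := by
    have := (h1.neg_right).add_mul_left_right 1
    rwa [show -y + x * 1 = x - y by ring] at this
  have c3 : IsCoprime y (y - x) := by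
    have := (h1.symm.neg_right).add_mul_left_right 1
    rwa [show -x + y * 1 = y - x by ring] at this
  rcases h with ⟨rfl, rfl⟩ | ⟨rfl, rfl⟩ | ⟨rfl, rfl⟩ | ⟨rfl, rfl⟩ | ⟨rfl, rfl⟩ | ⟨rfl, rfl⟩
  · exact fam h1 h2 hc
  · have h3 : T e p (p - y) := fam c2 (by rw [m2]; exact h2) hc
    have h4 := h3.refl'
    rwa [show p - (p - y) = y by ring] at h4
  · exact (fam h1.symm (by rw [m1]; exact h2.neg_right) hc).swap
  · have h3 : T e p (p - x) := fam c3 (by rw [m3]; exact h2.neg_right) (by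
      have := hc.neg_right
      rwa [neg_sub] at this)
    have h4 := h3.refl'
    rw [show p - (p - x) = x by ring] at h4
    exact h4.swap
  · have h3 : T e (q - y) q := fam c2.symm (by rw [m4]; exact h2.neg_right) hc
    have h4 := h3.swap.refl'
    rwa [show q - (q - y) = y by ring] at h4
  · have h3 : T e (q - x) q := fam c3.symm (by rw [m5]; exact h2) (by
      have := hc.neg_left
      rwa [neg_sub] at this)
    have h4 := h3.swap.refl'
    rw [show q - (q - x) = x by ring] at h4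
    exact h4.swap

/-- the general statement for matrices -/
theorem main {n k m b c d D x y p q j : ℤ} (hkm : IsCoprime k m) (hF : F n k m = -(b * d))
    (hc : d ∣ m * c - k) (hD : D * d = -f n c) (hxy : IsCoprime x y)
    (hb : IsCoprime (b + k * m * (k - m) * j) (x * y * (x - y)))
    (hv : (b + k * m * (k - m) * j) ∣ k * y - m * x) (h2 : Two x y p q)
    (hcond : Cond (b + k * m * (k - m) * j) p q) : GEq (X D c d n) A0 := by
  have h1 : IsCoprime b (k * m * (k - m)) := copS hkm hF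
  have hT : T (b + k * m * (k - m) * j) x y := fam2 hxy hb h2 hcond
  have hb' : IsCoprime (b + Mf k m * j) (Mf k m) := IsCoprime.add_mul_left_left h1 j
  have hT2 : T (b + Mf k m * j) k m := by
    refine T.vec _ k m x y hkm hb' ?_ hT
    have e1 : k * y - x * m = k * y - m * x := by ring
    rw [e1]
    exact hv
  have hT3 : T b k m := T.shift b j k m hkm h1 hT2
  obtain ⟨r, hr⟩ := exists_root k (cop hkm hF)
  exact of_good hkm hF hc hr hD (hT3.good r hr)

/-- the case of one vector -/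
theorem main1 {n k m b c d D p q : ℤ} (hkm : IsCoprime k m) (hF : F n k m = -(b * d))
    (hc : d ∣ m * c - k) (hD : D * d = -f n c) (h2 : Two k m p q)
    (hcond : Cond b p q) : GEq (X D c d n) A0 := by
  have h1 : IsCoprime b (k * m * (k - m)) := copS hkm hF
  refine main (j := 0) hkm hF hc hD hkm ?_ ⟨0, by ring⟩ h2 ?_
  · rw [mul_zero, add_zero]
    exact h1
  · rw [mul_zero, add_zero]
    exact hcond

end Pool.Agent.Helper70.CS
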