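import Pool.Agent.Helper70.CS.Core

set_option autoImplicit false

/-! The euclidean algorithm with the step three, and the one for index two. -/

namespace Pool.Agent.Helper70.CS

theorem unit_cop {p X : ℤ} (hp : IsUnit p) : IsCoprime p X :=
  (isCoprime_one_left).of_isCoprime_of_dvd_left (isUnit_iff_dvd_one.1 hp)

theorem cop_three {w X : ℤ} (hw : w = 3 ∨ w = -3) (h : ¬ (3 : ℤ) ∣ X) : IsCoprime w X := by
  have h3 : IsCoprime (3 : ℤ) X := (Int.prime_three.coprime_iff_not_dvd).2 h
  rcases hw with rfl | rfl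
  · exact h3
  · exact h3.neg_left

/-- a step on `X` is always possible -/
theorem stepX3 {p w X Y : ℤ} (hp : p = 1 ∨ p = -1) (hw : w = 3 ∨ w = -3) (s : ℤ)
    (hs : s = 1 ∨ s = -1) (h1 : ¬ (3 : ℤ) ∣ X + p) (h2 : IsCoprime X Y)
    (hQ : Q p w (X + w * Y * s) Y) : Q p w X Y := by
  have hpu : IsUnit p := Int.isUnit_iff.2 hp
  have hw3 : (3 : ℤ) ∣ w := by rcases hw with rfl | rfl <;> norm_num
  -- the conditions for `(X', Y')`
  have key : ∀ X' Y' : ℤ, (3 : ℤ) ∣ X' - X → IsCoprime X' Y' → CV p w X' Y' := by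
    intro X' Y' h3 h4
    refine ⟨unit_cop hpu, unit_cop hpu, cop_three hw ?_, h4⟩
    intro h5
    apply h1
    have e1 : X + p = (X' + p) - (X' - X) := by ring
    rw [e1]
    exact dvd_sub h5 h3
  have hstep : ∀ X' Y' : ℤ, IsCoprime X' Y' → ∀ t : ℤ, IsCoprime (X' + w * Y' * t) Y' := by
    intro X' Y' h t
    have e1 : X' + w * Y' * t = X' + Y' * (w * t) := by ring
    rw [e1]
    exact h.add_mul_left_left _
  have hstepY : ∀ X' Y' : ℤ, IsCoprime X' Y' → ∀ t : ℤ, IsCoprime X' (Y' + p * X' * t) := by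
    intro X' Y' h t
    have e1 : Y' + p * X' * t = Y' + X' * (p * t) := by ring
    rw [e1]
    exact h.add_mul_left_right _
  have hX : CV p w X Y := key X Y (by simp) h2
  by_cases hY : (3 : ℤ) ∣ Y
  · -- the detour
    have hX3 : ¬ (3 : ℤ) ∣ X := by
      intro h3
      have h4 := h2.isUnit_of_dvd' h3 hY
      rw [Int.isUnit_iff] at h4
      omega
    obtain ⟨a, ha⟩ : ∃ a : ℤ, a = (if p * w * s > 0 then 1 else -1) := ⟨_, rfl⟩
    obtain ⟨b, hb⟩ : ∃ b : ℤ, b = -s := ⟨_, rfl⟩
    have hrel : p * w * s = 3 * a := by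
      rcases hp with rfl | rfl <;> rcases hw with rfl | rfl <;> rcases hs with rfl | rfl <;>
        norm_num at ha ⊢ <;> rw [ha] <;> norm_num
    have haa : a * a = 1 := by
      rw [ha]
      split_ifs <;> norm_num
    have hpp : p * p = 1 := by rcases hp with rfl | rfl <;> norm_num
    -- the sequence
    obtain ⟨Y1, hY1⟩ : ∃ Y1 : ℤ, Y1 = Y + p * X * a := ⟨_, rfl⟩
    obtain ⟨X1, hX1⟩ : ∃ X1 : ℤ, X1 = X + w * Y1 * b := ⟨_, rfl⟩
    obtain ⟨Y2, hY2⟩ : ∃ Y2 : ℤ, Y2 = Y1 + p * X1 * a := ⟨_, rfl⟩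
    obtain ⟨X2, hX2⟩ : ∃ X2 : ℤ, X2 = X1 + w * Y2 * b := ⟨_, rfl⟩
    obtain ⟨Y3, hY3⟩ : ∃ Y3 : ℤ, Y3 = Y2 + p * X2 * a := ⟨_, rfl⟩
    have hwb : w * b = -(3 * a * p) := by
      have : p * (p * w * s) = p * (3 * a) := by rw [hrel]
      rw [hb]
      have e1 : p * (p * w * s) = p * p * (w * s) := by ring
      rw [e1, hpp] at this
      linarith
    have eX1 : X1 = -2 * X - 3 * a * p * Y := by
      have : w * Y1 * b = (w * b) * Y1 := by ring
      rw [hX1, this, hwb, hY1]
      have e1 : X + -(3 * a * p) * (Y + p * X * a) = X - 3 * (a * a) * (p * p) * X - 3 * a * p * Y := by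
        ring
      rw [e1, haa, hpp]
      ring
    have eY2 : Y2 = -2 * Y - p * X * a := by
      rw [hY2, eX1, hY1]
      have e1 : Y + p * X * a + p * (-2 * X - 3 * a * p * Y) * a =
        Y - p * X * a - 3 * (a * a) * (p * p) * Y := by ring
      rw [e1, haa, hpp]
      ring
    have eX2 : X2 = X + w * Y * s := by
      have h5 : w * Y2 * b = (w * b) * Y2 := by ring
      have h6 : w * Y * s = -(w * b) * Y := by rw [hb]; ring
      rw [hX2, h5, h6, hwb, eX1, eY2]
      have e1 : -2 * X - 3 * a * p * Y + -(3 * a * p) * (-2 * Y - p * X * a) =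
        -2 * X + 3 * (a * a) * (p * p) * X + 3 * a * p * Y := by ring
      rw [e1, haa, hpp]
      ring
    have eY3 : Y3 = Y := by
      have h6 : w * Y * s = -(w * b) * Y := by rw [hb]; ring
      rw [hY3, eX2, eY2, h6, hwb]
      have e1 : -2 * Y - p * X * a + p * (X + -(-(3 * a * p)) * Y) * a =
        -2 * Y + 3 * (a * a) * (p * p) * Y := by ring
      rw [e1, haa, hpp]
      ring
    have c1 : IsCoprime X Y1 := by rw [hY1]; exact hstepY _ _ h2 _
    have c2 : IsCoprime X1 Y1 := by rw [hX1]; exact hstep _ _ c1 _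
    have c3 : IsCoprime X1 Y2 := by rw [hY2]; exact hstepY _ _ c2 _
    have c4 : IsCoprime X2 Y2 := by rw [hX2]; exact hstep _ _ c3 _
    have d1 : (3 : ℤ) ∣ X1 - X := by
      rw [hX1]
      have e1 : X + w * Y1 * b - X = w * (Y1 * b) := by ring
      rw [e1]
      exact hw3.mul_right _
    have d2 : (3 : ℤ) ∣ X2 - X := by
      rw [eX2]
      have e1 : X + w * Y * s - X = w * (Y * s) := by ring
      rw [e1]
      exact hw3.mul_right _
    have hpa : ¬ (3 : ℤ) ∣ p * X * a := by
      intro h5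
      apply hX3
      have e1 : X = p * a * (p * X * a) := by
        have : p * a * (p * X * a) = (p * p) * (a * a) * X := by ring
        rw [this, hpp, haa]
        ring
      rw [e1]
      exact h5.mul_left _
    have n1 : ¬ (3 : ℤ) ∣ Y1 := by
      rw [hY1]
      intro h5
      exact hpa ((dvd_add_right hY).1 h5)
    have n2 : ¬ (3 : ℤ) ∣ Y2 := by
      rw [eY2]
      intro h5
      have h6 : (3 : ℤ) ∣ -2 * Y := hY.mul_left _
      exact hpa ((dvd_sub_right h6).1 h5)
    refine stepY a hX ?_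
    rw [← hY1]
    refine stepX b (key X Y1 (by simp) c1) ?_ (cop_three hw n1) ?_
    · rw [← hX1]
      exact key _ _ d1 c2
    rw [← hX1]
    refine stepY a (key X1 Y1 d1 c2) ?_
    rw [← hY2]
    refine stepX b (key X1 Y2 d1 c3) ?_ (cop_three hw n2) ?_
    · rw [← hX2]
      exact key _ _ d2 c4
    rw [← hX2]
    refine stepY a (key X2 Y2 d2 c4) ?_
    rw [← hY3, eY3, eX2]
    exact hQ
  · refine stepX s hX (key _ _ ?_ (hstep _ _ h2 _)) (cop_three hw hY) hQ
    have e1 : X + w * Y * s - X = w * (Y * s) := by ring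
    rw [e1]
    exact hw3.mul_right _

theorem dec' {X Z : ℤ} (hZ : Z ≠ 0) (h : |Z| < 2 * |X|) :
    ∃ s : ℤ, (s = 1 ∨ s = -1) ∧ (X + Z * s).natAbs < X.natAbs := by
  rw [Int.abs_eq_natAbs, Int.abs_eq_natAbs] at h
  by_cases hs : (0 < Z ∧ 0 < X) ∨ (Z < 0 ∧ X < 0)
  · exact ⟨-1, Or.inr rfl, by omega⟩
  · exact ⟨1, Or.inl rfl, by omega⟩

/-- the euclidean algorithm with the step three -/
theorem coreB {p w : ℤ} (hp : p = 1 ∨ p = -1) (hw : w = 3 ∨ w = -3) :
    ∀ (n : ℕ) (X Y : ℤ), X.natAbs + Y.natAbs ≤ n → ¬ (3 : ℤ) ∣ X + p → IsCoprime X Y →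
      Q p w X Y := by
  have hpu : IsUnit p := Int.isUnit_iff.2 hp
  have hw3 : (3 : ℤ) ∣ w := by rcases hw with rfl | rfl <;> norm_num
  have hp0 : p ≠ 0 := by rcases hp with rfl | rfl <;> norm_num
  have hw0 : w ≠ 0 := by rcases hw with rfl | rfl <;> norm_num
  have hpa : |p| = 1 := by rcases hp with rfl | rfl <;> norm_num
  have hwa : |w| = 3 := by rcases hw with rfl | rfl <;> norm_num
  intro n
  induction n with
  | zero =>
    intro X Y hn _ hXY
    have hX : X = 0 := by omega
    have hY : Y = 0 := by omega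
    rw [hX, hY, isCoprime_zero_left] at hXY
    exact absurd hXY not_isUnit_zero
  | succ n ih =>
    intro X Y hn h1 hXY
    have hC : CV p w X Y := ⟨unit_cop hpu, unit_cop hpu, cop_three hw h1, hXY⟩
    by_cases hX2 : |X| ≤ 2
    · refine T.base hC.prim hC.cop ?_
      unfold Mf
      have e1 : p * (p + X) * (p - (p + X)) = -(p * ((p + X) * X)) := by ring
      rw [e1, abs_neg, abs_mul, abs_mul, hpa]
      have a1 : |p + X| ≤ 3 := (abs_add_le p X).trans (by rw [hpa]; linarith)
      have a2 : |p + X| * |X| ≤ 3 * 2 := mul_le_mul a1 hX2 (abs_nonneg _) (by norm_num)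
      linarith
    push Not at hX2
    have hY0 : Y ≠ 0 := by
      rintro rfl
      rw [isCoprime_zero_right, Int.isUnit_iff] at hXY
      rcases hXY with h | h <;> rw [h] at hX2 <;> norm_num at hX2
    have hX0 : X ≠ 0 := by
      rintro rfl
      norm_num at hX2
    by_cases hc : |w * Y| < 2 * |X|
    · obtain ⟨s, hs, hlt⟩ := dec' (mul_ne_zero hw0 hY0) hc
      refine stepX3 hp hw s hs h1 hXY (ih _ _ (by omega) ?_ ?_)
      · intro h3
        apply h1
        have e1 : X + p = (X + w * Y * s + p) - w * (Y * s) := by ring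
        rw [e1]
        exact dvd_sub h3 (hw3.mul_right _)
      · have e1 : X + w * Y * s = X + Y * (w * s) := by ring
        rw [e1]
        exact hXY.add_mul_left_left _
    · push Not at hc
      have hd : |p * X| < 2 * |Y| := by
        rw [abs_mul, hwa] at hc
        rw [abs_mul, hpa]
        have := abs_pos.2 hX0
        linarith
      obtain ⟨s, hs, hlt⟩ := dec' (mul_ne_zero hp0 hX0) hd
      refine stepY s hC (ih _ _ (by omega) h1 ?_)
      have e1 : Y + p * X * s = Y + X * (p * s) := by ring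
      rw [e1]
      exact hXY.add_mul_left_right _

/-- the euclidean algorithm for index two -/
theorem coreC {p w : ℤ} (hp : p = 1 ∨ p = -1) (hw : w = 1 ∨ w = -1) :
    ∀ (n : ℕ) (X Y : ℤ), X.natAbs + Y.natAbs ≤ n → ¬ (2 : ℤ) ∣ X + Y → IsCoprime X Y →
      T (2 * X * Y + p * Y - w * X) p (p + 2 * X) := by
  have hpu : IsUnit p := Int.isUnit_iff.2 hp
  have hwu : IsUnit w := Int.isUnit_iff.2 hw
  have hpp : p * p = 1 := by rcases hp with rfl | rfl <;> norm_num
  have hww : w * w = 1 := by rcases hw with rfl | rfl <;> norm_num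
  have hp0 : p ≠ 0 := by rcases hp with rfl | rfl <;> norm_num
  have hw0 : w ≠ 0 := by rcases hw with rfl | rfl <;> norm_num
  have hpa : |p| = 1 := by rcases hp with rfl | rfl <;> norm_num
  have hwa : |w| = 1 := by rcases hw with rfl | rfl <;> norm_num
  have prim : ∀ X : ℤ, IsCoprime p (p + 2 * X) := fun X => unit_cop hpu
  have primU : ∀ Y : ℤ, IsCoprime (w - 2 * Y) w := fun Y => (unit_cop hwu).symm
  have par : ∀ X Y : ℤ, ¬ (2 : ℤ) ∣ X + Y → ¬ (2 : ℤ) ∣ 2 * X * Y + p * Y - w * X := by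
    intro X Y h h'
    apply h
    rcases hp with rfl | rfl <;> rcases hw with rfl | rfl
    · have e : X + Y = (2 * X * Y + 1 * Y - 1 * X) - 2 * (X * Y - X) := by ring
      rw [e]; exact dvd_sub h' ⟨_, rfl⟩
    · have e : X + Y = (2 * X * Y + 1 * Y - (-1) * X) - 2 * (X * Y) := by ring
      rw [e]; exact dvd_sub h' ⟨_, rfl⟩
    · have e : X + Y = (2 * X * Y + (-1) * Y - 1 * X) - 2 * (X * Y - X - Y) := by ring
      rw [e]; exact dvd_sub h' ⟨_, rfl⟩
    · have e : X + Y = (2 * X * Y + (-1) * Y - (-1) * X) - 2 * (X * Y - Y) := by ring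
      rw [e]; exact dvd_sub h' ⟨_, rfl⟩
  have cop : ∀ X Y : ℤ, ¬ (2 : ℤ) ∣ X + Y → IsCoprime X Y →
      IsCoprime (2 * X * Y + p * Y - w * X) (Mf p (p + 2 * X)) := by
    intro X Y h h'
    unfold Mf
    refine IsCoprime.mul_right (IsCoprime.mul_right (unit_cop hpu).symm ?_) ?_
    · have e1 : 2 * X * Y + p * Y - w * X = -(w * X) + (p + 2 * X) * Y := by ring
      rw [e1]
      have h3 : IsCoprime X (p + 2 * X) := by
        have := (unit_cop (X := X) hpu).symm.add_mul_left_right 2
        rwa [show p + X * 2 = p + 2 * X by ring] at this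
      exact ((IsCoprime.mul_left (unit_cop hwu) h3).neg_left).add_mul_left_left _
    · have e0 : p - (p + 2 * X) = -(2 * X) := by ring
      rw [e0]
      refine (IsCoprime.mul_right ?_ ?_).neg_right
      · exact ((Int.prime_two.coprime_iff_not_dvd).2 (par X Y h)).symm
      · have e1 : 2 * X * Y + p * Y - w * X = p * Y + X * (2 * Y - w) := by ring
        rw [e1]
        exact (IsCoprime.mul_left (unit_cop hpu) h'.symm).add_mul_left_left _
  have copU : ∀ X Y : ℤ, ¬ (2 : ℤ) ∣ X + Y → IsCoprime X Y →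
      IsCoprime (2 * X * Y + p * Y - w * X) (Mf (w - 2 * Y) w) := by
    intro X Y h h'
    unfold Mf
    refine IsCoprime.mul_right (IsCoprime.mul_right ?_ (unit_cop hwu).symm) ?_
    · have e1 : 2 * X * Y + p * Y - w * X = p * Y + (w - 2 * Y) * (-X) := by ring
      rw [e1]
      have h3 : IsCoprime Y (w - 2 * Y) := by
        have := (unit_cop (X := Y) hwu).symm.add_mul_left_right (-2)
        rwa [show w + Y * -2 = w - 2 * Y by ring] at this
      exact (IsCoprime.mul_left (unit_cop hpu) h3).add_mul_left_left _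
    · have e0 : w - 2 * Y - w = -(2 * Y) := by ring
      rw [e0]
      refine (IsCoprime.mul_right ?_ ?_).neg_right
      · exact ((Int.prime_two.coprime_iff_not_dvd).2 (par X Y h)).symm
      · have e1 : 2 * X * Y + p * Y - w * X = -(w * X) + Y * (2 * X + p) := by ring
        rw [e1]
        exact ((IsCoprime.mul_left (unit_cop hwu) h').neg_left).add_mul_left_left _
  intro n
  induction n with
  | zero =>
    intro X Y hn _ hXY
    have hX : X = 0 := by omega
    have hY : Y = 0 := by omega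
    rw [hX, hY, isCoprime_zero_left] at hXY
    exact absurd hXY not_isUnit_zero
  | succ n ih =>
    intro X Y hn h1 hXY
    by_cases hX2 : |X| ≤ 2
    · refine T.base (prim X) (cop X Y h1 hXY) ?_
      unfold Mf
      have e1 : p * (p + 2 * X) * (p - (p + 2 * X)) = -(p * ((p + 2 * X) * (2 * X))) := by ring
      rw [e1, abs_neg, abs_mul, abs_mul, hpa]
      have a0 : |2 * X| ≤ 4 := by rw [abs_mul]; norm_num; linarith
      have a1 : |p + 2 * X| ≤ 5 := (abs_add_le p _).trans (by rw [hpa]; linarith)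
      have a2 : |p + 2 * X| * |2 * X| ≤ 5 * 4 := mul_le_mul a1 a0 (abs_nonneg _) (by norm_num)
      linarith
    push Not at hX2
    have hY0 : Y ≠ 0 := by
      rintro rfl
      rw [isCoprime_zero_right, Int.isUnit_iff] at hXY
      rcases hXY with h | h <;> rw [h] at hX2 <;> norm_num at hX2
    have hX0 : X ≠ 0 := by
      rintro rfl
      norm_num at hX2
    have hne : |X| ≠ |Y| := by
      intro h
      rcases abs_eq_abs.1 h with h | h
      · apply h1
        rw [h]
        exact ⟨Y, by ring⟩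
      · apply h1
        rw [h]
        simp
    rcases lt_or_gt_of_ne hne with hc | hc
    · -- change `Y`
      have hd : |2 * p * X| < 2 * |Y| := by
        rw [abs_mul, abs_mul, hpa]
        norm_num
        linarith
      obtain ⟨s, hs, hlt⟩ := dec' (mul_ne_zero (mul_ne_zero two_ne_zero hp0) hX0) hd
      have h2 := ih X (Y + 2 * p * X * s) (by omega) (by
        intro h3
        apply h1
        have e1 : X + Y = (X + (Y + 2 * p * X * s)) - 2 * (p * X * s) := by ring
        rw [e1]
        exact dvd_sub h3 ⟨_, rfl⟩) (by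
        have e1 : Y + 2 * p * X * s = Y + X * (2 * p * s) := by ring
        rw [e1]
        exact hXY.add_mul_left_right _)
      refine T.shift _ (-s) _ _ (prim X) (cop X Y h1 hXY) ?_
      have e1 : 2 * X * Y + p * Y - w * X + Mf p (p + 2 * X) * -s =
          2 * X * (Y + 2 * p * X * s) + p * (Y + 2 * p * X * s) - w * X := by
        unfold Mf
        ring
      rw [e1]
      exact h2
    · -- change `X`
      have hd : |2 * w * Y| < 2 * |X| := by
        rw [abs_mul, abs_mul, hwa]
        norm_num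
        linarith
      obtain ⟨s, hs, hlt⟩ := dec' (mul_ne_zero (mul_ne_zero two_ne_zero hw0) hY0) hd
      obtain ⟨X', hX'⟩ : ∃ X', X' = X + 2 * w * Y * s := ⟨_, rfl⟩
      rw [← hX'] at hlt
      have g1 : ¬ (2 : ℤ) ∣ X' + Y := by
        intro h3
        apply h1
        have e1 : X + Y = (X' + Y) - 2 * (w * Y * s) := by rw [hX']; ring
        rw [e1]
        exact dvd_sub h3 ⟨_, rfl⟩
      have g2 : IsCoprime X' Y := by
        have e1 : X' = X + Y * (2 * w * s) := by rw [hX']; ring
        rw [e1]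
        exact hXY.add_mul_left_left _
      have h2 := ih X' Y (by omega) g1 g2
      refine T.vec _ _ _ (w - 2 * Y) w (prim X) (cop X Y h1 hXY) ⟨2, by ring⟩ ?_
      refine T.shift _ s _ _ (primU Y) (copU X Y h1 hXY) ?_
      have e1 : 2 * X * Y + p * Y - w * X + Mf (w - 2 * Y) w * s =
          2 * X' * Y + p * Y - w * X' := by
        rw [hX']
        unfold Mf
        ring
      rw [e1]
      exact T.vec _ _ _ p (p + 2 * X') (primU Y) (copU X' Y g1 g2) ⟨-2, by ring⟩ h2

end Pool.Agent.Helper70.CS
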